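import Pool.Agent.U285.LA.Lower

/-!
# The total number of sides of `k` faces of a simple line arrangement: `a(k) = 2 k (k - 1)`

The definitions (projective plane and its topology, lines, arrangements, simple arrangements,
faces, edges, number of sides, the set of values `q₁ + ⋯ + q_k - n`) are in
`Pool.Agent.U285.LA.Defs`.
-/

namespace Pool.Agent.Results.MP_fa8579_co.ExactValue

open Pool.Agent.U285.LA

/-- For every `k ≥ 1` the supremum `a(k)` of `q₁ + ⋯ + q_k - n`, over all simple arrangements of
`n` lines of the real projective plane and all `k` pairwise distinct faces (a `q₁`-gon, ..., a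
`q_k`-gon), equals `2 k (k - 1)` and is attained. In particular `a(4) = 24`. -/
theorem result : ∀ k : ℕ, 1 ≤ k → IsGreatest (excessSet k) (2 * (k : ℤ) * ((k : ℤ) - 1)) := by
  intro k hk
  refine ⟨lower_bound k hk, ?_⟩
  rintro m ⟨A, hA, hs, F, hF, hface, rfl⟩
  exact upper_bound k hA hs F hF hface

end Pool.Agent.Results.MP_fa8579_co.ExactValue
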